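import Pool.Agent.Work.MP_ecc80d_co_h34.Z2
import Pool.Agent.Work.MP_ecc80d_co_h34.Top
import Pool.Agent.Work.MP_ecc80d_co_h34.Upper
import Pool.Agent.Work.MP_ecc80d_co_h34.ZFinal

/-!
# The largest clique of the random Maker against an optimal Breaker is `(2 + o(1)) ln N`
-/

namespace Pool.Agent.Results.MP_ecc80d_co.RandomMakerThreshold

open Filter Topology Pool.Agent.RandomMaker

/-- `p_N(q) = cliqueProb N q`.
1. For every `ε > 0`, `p_N(q) > 1 - ε` for all large `N` and all `q ≤ (2 - ε) ln N`.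
2. `p_N(q) ≤ e ^ (-q)` for all large `N` and all `q ≥ 2 ln N - ln ln N + 8`.
3. There are `q(N)` with `p_N(q(N)) → 1` and `q(N) / ln N → 2`.
4. Every `q(N)` with `p_N(q(N)) → 1` satisfies `q(N) < 2 ln N - ln ln N + 8` for large `N`. -/
theorem result :
    (∀ ε : ℝ, 0 < ε → ∀ᶠ N : ℕ in atTop, ∀ q : ℕ,
      (q : ℝ) ≤ (2 - ε) * Real.log N → 1 - ε < cliqueProb N q) ∧
    (∀ᶠ N : ℕ in atTop, ∀ q : ℕ,
      2 * Real.log N - Real.log (Real.log N) + 8 ≤ q → cliqueProb N q ≤ Real.exp (-(q : ℝ))) ∧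
    (∃ q : ℕ → ℕ, Tendsto (fun N => cliqueProb N (q N)) atTop (𝓝 1) ∧
      Tendsto (fun N => (q N : ℝ) / Real.log N) atTop (𝓝 2)) ∧
    (∀ q : ℕ → ℕ, Tendsto (fun N => cliqueProb N (q N)) atTop (𝓝 1) →
      ∀ᶠ N : ℕ in atTop, (q N : ℝ) < 2 * Real.log N - Real.log (Real.log N) + 8) := by
  have hZ2 : Pool.Agent.RandomMakerFull.Stmt_Z2 :=
    Pool.Agent.RandomMakerFull.block_Z2 Pool.Agent.RandomMakerFull.block_A1
      Pool.Agent.RandomMakerFull.stmt_Z1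
  exact ⟨hZ2, Pool.Agent.RandomMakerFull.upper, Pool.Agent.RandomMakerFull.exists_seq hZ2,
    Pool.Agent.RandomMakerFull.seq_lt Pool.Agent.RandomMakerFull.upper⟩

end Pool.Agent.Results.MP_ecc80d_co.RandomMakerThreshold
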